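import Mathlib
import Pool.Agent.H17.W1

set_option autoImplicit false

namespace Pool.Agent.Results.MP_13df43_gt.Neg
open Set Filter Topology

abbrev P : Type := (ℝ → ZMod 2) → ZMod 2

def K (C : Set ℝ) : Set P :=
  {χ | (∀ a b, χ (a + b) = χ a + χ b) ∧ ∀ a, (∀ i ∈ C, a i = 0) → χ a = 0}

theorem K_mono {C D : Set ℝ} (h : C ⊆ D) : K C ⊆ K D :=
  fun _ hχ => ⟨hχ.1, fun a ha => hχ.2 a fun i hi => ha i (h hi)⟩

theorem K_closed (C : Set ℝ) : IsClosed (K C) := by
  simp only [K, ofPred_and, ofPred_forall]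
  exact (isClosed_iInter fun a => isClosed_iInter fun b => isClosed_eq (continuous_apply _)
    (by fun_prop)).inter (isClosed_iInter fun a =>
      isClosed_iInter fun _ => isClosed_eq (continuous_apply _) continuous_const)

def G : AddSubgroup P where
  carrier := {χ | ∃ C : Set ℝ, C.Countable ∧ χ ∈ K C}
  zero_mem' := ⟨∅, countable_empty, fun _ _ => by simp, fun _ _ => rfl⟩
  add_mem' := by
    rintro χ φ ⟨C, hC, h1⟩ ⟨D, hD, h2⟩
    refine ⟨C ∪ D, hC.union hD, fun a b => ?_, fun a ha => ?_⟩
    · simp only [Pi.add_apply, h1.1 a b, h2.1 a b]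
      abel
    · rw [Pi.add_apply, (K_mono subset_union_left h1).2 a ha,
        (K_mono subset_union_right h2).2 a ha, add_zero]
  neg_mem' := by
    rintro χ ⟨C, hC, h1⟩
    refine ⟨C, hC, fun a b => ?_, fun a ha => ?_⟩
    · simp only [Pi.neg_apply, h1.1 a b]
      abel
    · rw [Pi.neg_apply, h1.2 a ha, neg_zero]

theorem ev (a : ℝ → ZMod 2) : Continuous fun χ : G => χ.1 a :=
  Continuous.comp (g := fun p : P => p a) (f := fun χ : G => χ.1) (continuous_apply a)
    continuous_subtype_val

theorem result : ∃ (G : Type) (_ : AddCommGroup G) (_ : TopologicalSpace G),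
    IsTopologicalAddGroup G ∧ T2Space G ∧
    (∀ H : AddSubgroup G, (H : Set G).Countable → IsCompact (closure (H : Set G))) ∧
    ¬ ∃ s : Set G → G, (∀ U, IsOpen U → U.Nonempty → s U ∈ U) ∧
      ∀ U : ℕ → Set G, (∀ n, IsOpen (U n) ∧ (U n).Nonempty) →
        ∃ (φ : ℕ → ℕ) (x : G), StrictMono φ ∧ Tendsto (fun n => s (U (φ n))) atTop (𝓝 x) := by
  classical
  refine ⟨G, inferInstance, inferInstance, inferInstance, inferInstance, fun H hH => ?_, ?_⟩
  · choose C hC hK using fun χ : G => χ.2
    have h1 : IsCompact (Subtype.val ⁻¹' K (⋃ χ ∈ (H : Set G), C χ) : Set G) :=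
      Topology.IsInducing.subtypeVal.isCompact_preimage' (K_closed _).isCompact
        fun χ hχ => ⟨⟨χ, _, hH.biUnion fun χ _ => hC χ, hχ⟩, rfl⟩
    exact h1.of_isClosed_subset isClosed_closure (closure_minimal
      (fun χ hχ => K_mono (subset_biUnion_of_mem (u := C) hχ) (hK χ))
      ((K_closed _).preimage continuous_subtype_val))
  · rintro ⟨s, hs, hw⟩
    choose C hC hK using fun χ : G => χ.2
    let O : (ℕ → ℝ) → ℕ → Set G := fun r n =>
      {χ | χ.1 (Pi.single (r n) 1) = 1 ∧ ∀ m < n, χ.1 (Pi.single (r m) 1) = 0}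
    have hO : ∀ r n, IsOpen (O r n) := fun r n => by
      have h : ∀ a (c : ZMod 2), IsOpen {χ : G | χ.1 a = c} := fun a c =>
        (isOpen_discrete {c}).preimage (f := fun χ : G => χ.1 a) (ev a)
      have : O r n = {χ : G | χ.1 (Pi.single (r n) 1) = 1} ∩
        ⋂ m ∈ Iio n, {χ : G | χ.1 (Pi.single (r m) 1) = 0} := by ext; simp [O]
      rw [this]
      exact (h _ _).inter ((finite_Iio n).isOpen_biInter fun m _ => h _ _)
    have hn : ∀ S : Set ℝ, ∃ x, S.Countable → x ∉ S := fun S => by
      by_cases h : S.Countable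
      · obtain ⟨x, hx⟩ := nonempty_compl.2 fun e : S = univ => not_countable_univ (e ▸ h)
        exact ⟨x, fun _ => hx⟩
      · exact ⟨0, fun h' => (h h').elim⟩
    choose nx hnx using hn
    obtain ⟨r, hr⟩ := Pool.Agent.H17.W1.rec_seq (α := ℝ)
      (fun r n => nx (⋃ m ∈ Iio n, insert (r m) (C (s (O r m))))) (fun f g n h => by
        congr 1
        refine iUnion₂_congr fun m hm => ?_
        have : O f m = O g m := by
          ext χ
          exact and_congr (by rw [h m hm]) (forall₂_congr fun k hk => by rw [h k (hk.trans hm)])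
        rw [this, h m hm])
    have hr' : ∀ m n, m < n → r n ∉ insert (r m) (C (s (O r m))) := fun m n hmn h =>
      hnx _ ((to_countable (Iio n)).biUnion fun m _ => (hC (s (O r m))).insert (r m))
        (hr n ▸ mem_biUnion (show m ∈ Iio n from hmn) h)
    have hne : ∀ n, (O r n).Nonempty := fun n =>
      ⟨⟨fun a => a (r n), {r n}, countable_singleton _, fun _ _ => rfl, fun a ha => ha _ rfl⟩,
        by simp, fun m hm => Pi.single_eq_of_ne (fun e => hr' m n hm (Or.inl e)) _⟩
    obtain ⟨φ, x, hφ, hx⟩ := hw (O r) fun n => ⟨hO r n, hne n⟩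
    let a : ℝ → ZMod 2 := fun t => if ∃ k, t = r (φ (2 * k)) then 1 else 0
    have hinj : Function.Injective r := by
      intro m n he
      rcases lt_trichotomy m n with h | h | h
      exacts [(hr' m n h (Or.inl he.symm)).elim, h, (hr' n m h (Or.inl he)).elim]
    have key : ∀ n, (s (O r n)).1 a = a (r n) := fun n => by
      let L : (ℝ → ZMod 2) →+ ZMod 2 := AddMonoidHom.mk' (s (O r n)).1 (hK _).1
      have h1 := hs _ (hO r n) (hne n)
      let b : ℝ → ZMod 2 := ∑ m ∈ Finset.range (n + 1), Pi.single (r m) (a (r m))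
      have h2 : L (a - b) = 0 := (hK _).2 _ fun t ht => by
        simp only [b, Pi.sub_apply, Finset.sum_apply]
        by_cases h : ∃ m, r m = t
        · obtain ⟨m, rfl⟩ := h
          have hm : m ≤ n := not_lt.1 fun h => hr' n m h (Or.inr ht)
          rw [Finset.sum_eq_single m (fun k _ hk => Pi.single_eq_of_ne (hinj.ne hk.symm) _)
            (fun h => (h (Finset.mem_range.2 (by omega))).elim), Pi.single_eq_same, sub_self]
        · rw [Finset.sum_eq_zero fun k _ => Pi.single_eq_of_ne (fun e => h ⟨k, e.symm⟩) _]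
          simp only [a]
          rw [if_neg fun ⟨k, e⟩ => h ⟨_, e.symm⟩, sub_zero]
      have h3 : ∀ m, L (Pi.single (r m) (a (r m))) = a (r m) * L (Pi.single (r m) 1) := fun m => by
        simp only [a]
        split_ifs <;> simp
      have h4 : L b = a (r n) := by
        simp only [b, map_sum, h3]
        rw [Finset.sum_range_succ, Finset.sum_eq_zero fun m hm => by
          rw [show L (Pi.single (r m) 1) = 0 from h1.2 m (Finset.mem_range.1 hm), mul_zero],
          show L (Pi.single (r n) 1) = 1 from h1.1, zero_add, mul_one]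
      rw [map_sub, h4, sub_eq_zero] at h2
      exact h2
    have hc := ev a
    have ht := (hc.tendsto x).comp hx
    rw [nhds_discrete, tendsto_pure, eventually_atTop] at ht
    obtain ⟨N, hN⟩ := ht
    have h1 := (key _).symm.trans (hN (2 * N) (by omega))
    have h2 := (key _).symm.trans (hN (2 * N + 1) (by omega))
    simp only [a] at h1 h2
    rw [if_pos ⟨N, rfl⟩] at h1
    rw [if_neg fun ⟨k, e⟩ => by have := hφ.injective (hinj e); omega] at h2
    exact one_ne_zero (h1.trans h2.symm)

end Pool.Agent.Results.MP_13df43_gt.Neg
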